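import Pool.Agent.helper91.SI.Spec

/-! Row `si:IAD` (MP_ee5996_co). -/

set_option autoImplicit false

namespace Pool.Agent.helper91.SI

open Pool.Agent.helper20.IG (IsIndepDom IsISet iGraph)

theorem IAD : IAD_stmt := by
  intro V _ G X Y
  constructor
  · rintro ⟨_, u, hu, v, hv, huv, hY⟩
    have hvX : v ∉ X.1 := fun h => X.2.1.1 u hu v h huv
    exact ⟨u, v, ⟨X.2, hu, hvX, huv, hY ▸ Y.2⟩, hY⟩
  · rintro ⟨s, v, ⟨_, hs, hv, hsv, _⟩, hY⟩
    have hvY : v ∈ Y.1 := by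
      rw [hY]
      exact Finset.mem_insert_self _ _
    refine ⟨fun h => hv (h ▸ hvY), s, hs, v, hvY, hsv, hY⟩

end Pool.Agent.helper91.SI
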